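import Mathlib
import Pool.Agent.R308.LNK.Final
import Pool.Agent.R308.LNK.PartA
import Pool.Agent.R308.LNK.PartB1

/-!
# MP_5c4bc0_an: real-rootedness and the largest root of `L_{n,k}` (full answer, TRUE)

`R308.LNK.L`  : the polynomials `L_n` (`L_0 = -X`, `L_{n+1} = -L_n + n ∫_0^X L_n`)
`R308.LNK.Lk` : `L_{n,k}`, the coefficient of `T^n` in `F^k`, `F = ∑ L_n T^n`
`R308.LNK.rho`: the largest real root `ρ_{n,k}` of `L_{n,k}`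
-/

namespace Pool.Agent.Results.MP_5c4bc0_an.LargestRoot

open Polynomial Filter Asymptotics R308.LNK

/-- **Full answer (TRUE).** For all `n, k ≥ 1` all complex roots of `L_{n,k}` are real and
nonnegative, `ρ_{n,k}` is the largest one, and there are polynomials `C_m` of degree exactly `m`
with `ρ_{n,k} ∼ n + log n + γ + k - 1 + ∑ C_m(k) n^{-(m+1)}` for each fixed `k ≥ 1`; here
`C_0 = -(3/2 + ζ(2) + ζ(3))` and the leading coefficient of `C_m` (`m ≥ 1`) is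
`(-1)^{m+1} (ζ(2) + ζ(3))`. -/
theorem result :
    (∀ n k : ℕ, 1 ≤ n → 1 ≤ k → Lk n k ≠ 0 ∧
      (∀ z : ℂ, aeval z (Lk n k) = 0 → ∃ r : ℝ, 0 ≤ r ∧ z = r) ∧
      IsGreatest {x : ℝ | aeval x (Lk n k) = 0} (rho n k)) ∧
    (∃ Cm : ℕ → ℝ[X], (∀ m, (Cm m).natDegree = m) ∧
      Cm 0 = C (-(3 / 2 + (∑' i : ℕ, 1 / ((i : ℝ) + 1) ^ 2) + ∑' i : ℕ, 1 / ((i : ℝ) + 1) ^ 3)) ∧
      (∀ m, 1 ≤ m → (Cm m).leadingCoeff =
        (-1) ^ (m + 1) * ((∑' i : ℕ, 1 / ((i : ℝ) + 1) ^ 2) + ∑' i : ℕ, 1 / ((i : ℝ) + 1) ^ 3)) ∧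
      ∀ k : ℕ, 1 ≤ k → ∀ M : ℕ,
        (fun n : ℕ => rho n k - ((n : ℝ) + Real.log n + Real.eulerMascheroniConstant + k - 1)
          - ∑ m ∈ Finset.range (M + 1), (Cm m).eval (k : ℝ) / (n : ℝ) ^ (m + 1)) =O[atTop]
        fun n : ℕ => 1 / (n : ℝ) ^ (M + 2)) := by
  refine ⟨fun n k hn hk => ?_, expansion_of expansion partB1⟩
  obtain ⟨m, rfl⟩ : ∃ m, n = m + 1 := ⟨n - 1, by omega⟩
  obtain ⟨κ, rfl⟩ : ∃ κ, k = κ + 1 := ⟨k - 1, by omega⟩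
  exact ⟨(all_roots m κ).1, (all_roots m κ).2, greatest m κ⟩

end Pool.Agent.Results.MP_5c4bc0_an.LargestRoot
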